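import Mathlib
import Pool.Agent.W366.DQ.FLOW

/-!
# A radial flow in `ℂ × F`, supported in the unit ball away from the axis
-/

set_option autoImplicit false
set_option linter.unusedSectionVars false

open Filter Topology Set
open scoped ContDiff

namespace Pool.Agent.Y567.DF

variable {F : Type} [NormedAddCommGroup F] [InnerProductSpace ℝ F]

/-- the square of the euclidean norm -/
noncomputable def gg (p : ℂ × F) : ℝ := Complex.normSq p.1 + ‖p.2‖ ^ 2

/-- the cut off function -/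
noncomputable def ch (p : ℂ × F) : ℝ :=
  expNegInvGlue (1 - gg p) * expNegInvGlue (Complex.normSq p.1 - 1 / 4)

/-- the vector field -/
noncomputable def XX (p : ℂ × F) : ℂ × F := (ch p • p.1, 0)

/-- rotation of the first coordinate by the angle `2πθ` -/
noncomputable def rot (θ : ℝ) (p : ℂ × F) : ℂ × F :=
  (Complex.exp ((2 * Real.pi * θ : ℝ) * Complex.I) * p.1, p.2)

lemma normSq_eq (z : ℂ) : Complex.normSq z = z.re ^ 2 + z.im ^ 2 := by
  rw [Complex.normSq_apply]
  ring

lemma contDiff_re {n : WithTop ℕ∞} : ContDiff ℝ n (fun z : ℂ => z.re) := Complex.reCLM.contDiff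

lemma contDiff_im {n : WithTop ℕ∞} : ContDiff ℝ n (fun z : ℂ => z.im) := Complex.imCLM.contDiff

lemma contDiff_normSq {n : WithTop ℕ∞} : ContDiff ℝ n (fun z : ℂ => Complex.normSq z) := by
  simp only [normSq_eq]
  exact (contDiff_re.pow 2).add (contDiff_im.pow 2)

lemma contDiff_gg {n : WithTop ℕ∞} : ContDiff ℝ n (gg : ℂ × F → ℝ) := by
  unfold gg
  exact (contDiff_normSq.comp contDiff_fst).add ((contDiff_norm_sq ℝ).comp contDiff_snd)

lemma gg_nonneg (p : ℂ × F) : 0 ≤ gg p := by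
  unfold gg
  have := Complex.normSq_nonneg p.1
  positivity

lemma contDiff_ch {n : ℕ∞} : ContDiff ℝ n (ch : ℂ × F → ℝ) := by
  unfold ch
  exact (expNegInvGlue.contDiff.comp (contDiff_const.sub contDiff_gg)).mul
    (expNegInvGlue.contDiff.comp ((contDiff_normSq.comp contDiff_fst).sub contDiff_const))

lemma contDiff_XX {n : ℕ∞} : ContDiff ℝ n (XX : ℂ × F → ℂ × F) := by
  unfold XX
  exact (contDiff_ch.smul contDiff_fst).prodMk contDiff_const

lemma ch_nonneg (p : ℂ × F) : 0 ≤ ch p := by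
  unfold ch
  exact mul_nonneg (expNegInvGlue.nonneg _) (expNegInvGlue.nonneg _)

lemma ch_zero_of_ge {p : ℂ × F} (h : 1 ≤ gg p) : ch p = 0 := by
  unfold ch
  rw [expNegInvGlue.zero_of_nonpos (by linarith), zero_mul]

lemma ch_zero_of_small {p : ℂ × F} (h : Complex.normSq p.1 ≤ 1 / 4) : ch p = 0 := by
  unfold ch
  rw [expNegInvGlue.zero_of_nonpos (x := Complex.normSq p.1 - 1 / 4) (by linarith), mul_zero]

lemma ch_pos {p : ℂ × F} (h : gg p < 1) (h2 : 1 / 4 < Complex.normSq p.1) : 0 < ch p := by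
  unfold ch
  exact mul_pos (expNegInvGlue.pos_of_pos (by linarith)) (expNegInvGlue.pos_of_pos (by linarith))

lemma XX_zero {p : ℂ × F} (h : ch p = 0) : XX p = 0 := by
  unfold XX
  rw [h, zero_smul]
  rfl

lemma norm_le_of_gg {p : ℂ × F} {r : ℝ} (hr : 0 ≤ r) (h : gg p ≤ r ^ 2) : ‖p‖ ≤ r := by
  unfold gg at h
  rw [Complex.normSq_eq_norm_sq] at h
  have h1 : ‖p.1‖ ^ 2 ≤ r ^ 2 := by
    have := sq_nonneg ‖p.2‖
    linarith
  have h2 : ‖p.2‖ ^ 2 ≤ r ^ 2 := by
    have := sq_nonneg ‖p.1‖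
    linarith
  rw [Prod.norm_def]
  exact max_le (le_of_sq_le_sq h1 hr) (le_of_sq_le_sq h2 hr)

lemma exists_lip [FiniteDimensional ℝ F] : ∃ K : NNReal, LipschitzWith K (XX : ℂ × F → ℂ × F) := by
  have hc : HasCompactSupport (XX : ℂ × F → ℂ × F) := by
    apply HasCompactSupport.intro (isCompact_closedBall (0 : ℂ × F) 1)
    intro p hp
    apply XX_zero
    apply ch_zero_of_ge
    by_contra h
    rw [not_le] at h
    apply hp
    rw [mem_closedBall_zero_iff]
    exact norm_le_of_gg zero_le_one (by rw [one_pow]; exact h.le)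
  exact ContDiff.lipschitzWith_of_hasCompactSupport (𝕂 := ℝ) (n := ∞) hc contDiff_XX (by simp)

variable (F) in
lemma exists_flow [FiniteDimensional ℝ F] : ∃ Φ : ℝ → Equiv.Perm (ℂ × F), Φ 0 = 1 ∧
    (∀ s t, Φ (s + t) = Φ s * Φ t) ∧ ContDiff ℝ ∞ (fun q : ℝ × (ℂ × F) => Φ q.1 q.2) ∧
    ∀ t p, HasDerivAt (fun s => Φ s p) (XX (Φ t p)) t :=
  Pool.Agent.W366.DQ.flow (ℂ × F) XX contDiff_XX exists_lip

variable [FiniteDimensional ℝ F]

variable (F) in
/-- the flow of the vector field -/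
noncomputable def fl : ℝ → Equiv.Perm (ℂ × F) := (exists_flow F).choose

lemma fl_zero : fl F 0 = 1 := (exists_flow F).choose_spec.1

lemma fl_add (s t : ℝ) (p : ℂ × F) : fl F (s + t) p = fl F s (fl F t p) := by
  have := (exists_flow F).choose_spec.2.1 s t
  exact congrArg (fun e => e p) this

lemma fl_contDiff : ContDiff ℝ ∞ (fun q : ℝ × (ℂ × F) => fl F q.1 q.2) :=
  (exists_flow F).choose_spec.2.2.1

lemma fl_deriv (t : ℝ) (p : ℂ × F) : HasDerivAt (fun s => fl F s p) (XX (fl F t p)) t :=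
  (exists_flow F).choose_spec.2.2.2 t p

lemma fl_zero_apply (p : ℂ × F) : fl F 0 p = p := by
  rw [fl_zero]
  rfl

lemma fl_neg (t : ℝ) (p : ℂ × F) : fl F (-t) (fl F t p) = p := by
  rw [← fl_add, neg_add_cancel, fl_zero_apply]

lemma fl_neg' (t : ℝ) (p : ℂ × F) : fl F t (fl F (-t) p) = p := by
  rw [← fl_add, add_neg_cancel, fl_zero_apply]

/-- uniqueness of solutions -/
lemma fl_unique {γ : ℝ → ℂ × F} (h : ∀ t, HasDerivAt γ (XX (γ t)) t) (t : ℝ) :
    γ t = fl F t (γ 0) := by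
  obtain ⟨K, hK⟩ := exists_lip (F := F)
  have h1 := ODE_solution_unique_univ (v := fun _ => XX) (s := fun _ => univ) (K := K)
    (f := γ) (g := fun t => fl F t (γ 0)) (t₀ := 0) (fun _ => hK.lipschitzOnWith)
    (fun t => ⟨h t, mem_univ _⟩) (fun t => ⟨fl_deriv t _, mem_univ _⟩) (by rw [fl_zero_apply])
  exact congrFun h1 t

lemma fl_of_ch {p : ℂ × F} (h : ch p = 0) (t : ℝ) : fl F t p = p := by
  have h1 : ∀ t : ℝ, HasDerivAt (fun _ : ℝ => p) (XX p) t := by
    intro t
    rw [XX_zero h]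
    exact hasDerivAt_const t p
  exact (fl_unique h1 t).symm

lemma fl_of_ge {p : ℂ × F} (h : 1 ≤ gg p) (t : ℝ) : fl F t p = p := fl_of_ch (ch_zero_of_ge h) t

lemma fl_of_small {p : ℂ × F} (h : Complex.normSq p.1 ≤ 1 / 4) (t : ℝ) : fl F t p = p :=
  fl_of_ch (ch_zero_of_small h) t

lemma fl_lt {p : ℂ × F} (h : gg p < 1) (t : ℝ) : gg (fl F t p) < 1 := by
  by_contra h1
  rw [not_lt] at h1
  have h2 := fl_of_ge h1 (-t)
  rw [fl_neg] at h2
  rw [← h2] at h1
  linarith

/-! ### Rotations -/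

omit [FiniteDimensional ℝ F] in
lemma normSq_exp (θ : ℝ) : Complex.normSq (Complex.exp ((θ : ℝ) * Complex.I)) = 1 := by
  rw [Complex.normSq_eq_norm_sq, Complex.norm_exp_ofReal_mul_I, one_pow]

omit [FiniteDimensional ℝ F] in
lemma normSq_rot (θ : ℝ) (p : ℂ × F) : Complex.normSq (rot θ p).1 = Complex.normSq p.1 := by
  unfold rot
  simp only
  rw [Complex.normSq_mul, normSq_exp, one_mul]

omit [FiniteDimensional ℝ F] in
lemma gg_rot (θ : ℝ) (p : ℂ × F) : gg (rot θ p) = gg p := by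
  unfold gg
  rw [normSq_rot]
  rfl

omit [FiniteDimensional ℝ F] in
lemma ch_rot (θ : ℝ) (p : ℂ × F) : ch (rot θ p) = ch p := by
  unfold ch
  rw [gg_rot, normSq_rot]

omit [FiniteDimensional ℝ F] in
lemma rot_add (s t : ℝ) (p : ℂ × F) : rot (s + t) p = rot s (rot t p) := by
  unfold rot
  simp only
  rw [← mul_assoc, ← Complex.exp_add]
  congr 3
  push_cast
  ring

omit [FiniteDimensional ℝ F] in
lemma rot_zero (p : ℂ × F) : rot 0 p = p := by
  unfold rot
  simp

omit [FiniteDimensional ℝ F] in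
lemma rot_int (n : ℤ) (p : ℂ × F) : rot (n : ℝ) p = p := by
  unfold rot
  have h : Complex.exp ((2 * Real.pi * (n : ℝ) : ℝ) * Complex.I) = 1 := by
    rw [Complex.exp_eq_one_iff]
    exact ⟨n, by push_cast; ring⟩
  rw [h, one_mul]

omit [FiniteDimensional ℝ F] in
lemma rot_neg (t : ℝ) (p : ℂ × F) : rot (-t) (rot t p) = p := by
  rw [← rot_add, neg_add_cancel, rot_zero]

omit [FiniteDimensional ℝ F] in
lemma rot_neg' (t : ℝ) (p : ℂ × F) : rot t (rot (-t) p) = p := by
  rw [← rot_add, add_neg_cancel, rot_zero]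

omit [FiniteDimensional ℝ F] in
lemma XX_rot (θ : ℝ) (p : ℂ × F) : XX (rot θ p) = rot θ (XX p) := by
  unfold XX
  rw [ch_rot]
  unfold rot
  simp only
  rw [mul_smul_comm]

/-- the rotation as a continuous linear map -/
noncomputable def rotL (θ : ℝ) : (ℂ × F) →L[ℝ] (ℂ × F) :=
  ((ContinuousLinearMap.mul ℝ ℂ (Complex.exp ((2 * Real.pi * θ : ℝ) * Complex.I))).comp
    (ContinuousLinearMap.fst ℝ ℂ F)).prod (ContinuousLinearMap.snd ℝ ℂ F)

omit [FiniteDimensional ℝ F] in
lemma rotL_apply (θ : ℝ) (p : ℂ × F) : rotL θ p = rot θ p := rfl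

lemma fl_rot (θ t : ℝ) (p : ℂ × F) : fl F t (rot θ p) = rot θ (fl F t p) := by
  have h1 : ∀ t : ℝ, HasDerivAt (fun t => rot θ (fl F t p)) (XX (rot θ (fl F t p))) t := by
    intro t
    rw [XX_rot]
    have h2 := (rotL (F := F) θ).hasFDerivAt (x := fl F t p)
    exact h2.comp_hasDerivAt t (fl_deriv t p)
  have h3 := fl_unique h1 t
  rw [fl_zero_apply] at h3
  exact h3.symm

/-! ### The flow is radial -/

lemma fl_snd (t : ℝ) (p : ℂ × F) : (fl F t p).2 = p.2 := by
  have h1 : ∀ s : ℝ, HasDerivAt (fun s => (fl F s p).2) 0 s := by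
    intro s
    have := (fl_deriv s p).snd
    exact this
  have h2 := is_const_of_deriv_eq_zero (f := fun s => (fl F s p).2)
    (fun s => (h1 s).differentiableAt) (fun s => (h1 s).deriv) t 0
  rw [h2, fl_zero_apply]

/-- the logarithm of the radial expansion -/
noncomputable def lam (t : ℝ) (p : ℂ × F) : ℝ := ∫ s in (0 : ℝ)..t, ch (fl F s p)

lemma continuous_fl (p : ℂ × F) : Continuous fun s => fl F s p :=
  continuous_iff_continuousAt.2 fun s => (fl_deriv s p).continuousAt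

lemma continuous_ch_fl (p : ℂ × F) : Continuous fun s => ch (fl F s p) :=
  (contDiff_ch (n := 0)).continuous.comp (continuous_fl p)

lemma lam_deriv (t : ℝ) (p : ℂ × F) : HasDerivAt (fun t => lam t p) (ch (fl F t p)) t :=
  intervalIntegral.integral_hasDerivAt_right
    ((continuous_ch_fl p).intervalIntegrable _ _)
    ((continuous_ch_fl p).stronglyMeasurableAtFilter _ _) (continuous_ch_fl p).continuousAt

lemma fl_fst (t : ℝ) (p : ℂ × F) : (fl F t p).1 = ((Real.exp (lam t p) : ℝ) : ℂ) * p.1 := by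
  have h1 : ∀ s : ℝ, HasDerivAt
      (fun s => ((Real.exp (-lam s p) : ℝ) : ℂ) * (fl F s p).1) 0 s := by
    intro s
    have h2 : HasDerivAt (fun s => (fl F s p).1) (ch (fl F s p) • (fl F s p).1) s := by
      have := (fl_deriv s p).fst
      exact this
    have h3 : HasDerivAt (fun s => ((Real.exp (-lam s p) : ℝ) : ℂ))
        ((Real.exp (-lam s p) * (-ch (fl F s p)) : ℝ) : ℂ) s :=
      ((lam_deriv s p).neg.exp).ofReal_comp
    have h4 := h3.mul h2
    refine h4.congr_deriv ?_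
    rw [Complex.real_smul]
    push_cast
    ring
  have h2 := is_const_of_deriv_eq_zero
    (f := fun s => ((Real.exp (-lam s p) : ℝ) : ℂ) * (fl F s p).1)
    (fun s => (h1 s).differentiableAt) (fun s => (h1 s).deriv) t 0
  have h3 : lam 0 p = 0 := by
    unfold lam
    exact intervalIntegral.integral_same
  rw [h3, fl_zero_apply] at h2
  simp only [neg_zero, Real.exp_zero, Complex.ofReal_one, one_mul] at h2
  rw [← h2, ← mul_assoc, ← Complex.ofReal_mul, ← Real.exp_add, add_neg_cancel, Real.exp_zero,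
    Complex.ofReal_one, one_mul]

/-- the base point -/
noncomputable def q0 : ℂ × F := (((3 / 4 : ℝ) : ℂ), 0)

omit [FiniteDimensional ℝ F] in
lemma normSq_q0 : Complex.normSq (q0 (F := F)).1 = 9 / 16 := by
  unfold q0
  simp only
  rw [Complex.normSq_ofReal]
  norm_num

omit [FiniteDimensional ℝ F] in
lemma gg_q0 : gg (q0 (F := F)) = 9 / 16 := by
  unfold gg
  rw [normSq_q0]
  unfold q0
  simp

lemma fl_q0 : fl F (-(1 / 2)) (q0 (F := F)) ≠ q0 := by
  intro h
  have h1 : fl F (1 / 2) (q0 (F := F)) = q0 := by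
    conv_lhs => rw [← h]
    exact fl_neg' _ _
  have h2 := fl_fst (1 / 2) (q0 (F := F))
  rw [h1] at h2
  have hq : (q0 (F := F)).1 ≠ 0 := by
    intro h
    have := normSq_q0 (F := F)
    rw [h, map_zero] at this
    norm_num at this
  have h3 : ((Real.exp (lam (1 / 2) (q0 (F := F))) : ℝ) : ℂ) = 1 := by
    have : ((Real.exp (lam (1 / 2) (q0 (F := F))) : ℝ) : ℂ) * (q0 (F := F)).1 = 1 * (q0 (F := F)).1 := by
      rw [one_mul]
      exact h2.symm
    exact mul_right_cancel₀ hq this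
  have h4 : lam (1 / 2) (q0 (F := F)) = 0 := by
    have h5 : Real.exp (lam (1 / 2) (q0 (F := F))) = 1 := by exact_mod_cast h3
    rwa [Real.exp_eq_one_iff] at h5
  have h6 : 0 < lam (1 / 2) (q0 (F := F)) := by
    unfold lam
    apply intervalIntegral.integral_pos (by norm_num) (continuous_ch_fl _).continuousOn
    · intro x _
      exact ch_nonneg _
    · refine ⟨0, ⟨le_rfl, by norm_num⟩, ?_⟩
      rw [fl_zero_apply]
      apply ch_pos
      · rw [gg_q0]; norm_num
      · rw [normSq_q0]; norm_num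
  linarith

end Pool.Agent.Y567.DF
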