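import Mathlib
import Pool.Agent.Y567.NC.Inv
import Pool.Agent.Y567.DF.Flw

/-!
# Twisted rotations and skew products in `ℂ × F`
-/

set_option autoImplicit false
set_option linter.unusedSectionVars false

open Filter Topology Set
open scoped ContDiff

namespace Pool.Agent.Y567.DF

open Pool.Agent.Y567.NC (al ga S amp cj Q NN S_zero S_succ S_per contDiff_S continuous_S
  continuous_S_amp abs_amp cj_per cj_cont cj_eq al_irr)

variable {F : Type} [NormedAddCommGroup F] [InnerProductSpace ℝ F] [FiniteDimensional ℝ F]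

/-! ### Angles -/

/-- the angle divided by `2π` -/
noncomputable def ang (p : ℂ × F) : ℝ := Complex.arg p.1 / (2 * Real.pi)

lemma per_eq {u : ℝ → ℝ} (hu : Function.Periodic u 1) {x y : ℝ}
    (h : Complex.exp ((2 * Real.pi * x : ℝ) * Complex.I) =
      Complex.exp ((2 * Real.pi * y : ℝ) * Complex.I)) : u x = u y := by
  rw [Complex.exp_eq_exp_iff_exists_int] at h
  obtain ⟨n, hn⟩ := h
  have h1 : ((2 * Real.pi * x : ℝ) : ℂ) = ((2 * Real.pi * y + n * (2 * Real.pi) : ℝ) : ℂ) := by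
    have h2 : ((2 * Real.pi * x : ℝ) : ℂ) * Complex.I =
        ((2 * Real.pi * y + n * (2 * Real.pi) : ℝ) : ℂ) * Complex.I := by
      rw [hn]
      push_cast
      ring
    exact mul_right_cancel₀ Complex.I_ne_zero h2
  have h3 : 2 * Real.pi * x = 2 * Real.pi * y + n * (2 * Real.pi) := by exact_mod_cast h1
  have h4 : x = y + n * 1 := by
    have h5 : 2 * Real.pi * x = 2 * Real.pi * (y + n * 1) := by
      rw [h3]
      ring
    exact mul_left_cancel₀ (by positivity) h5
  rw [h4]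
  exact hu.int_mul n y

lemma arg_eq {u : ℝ → ℝ} (hu : Function.Periodic u 1) {z : ℂ} {r x : ℝ} (hr : 0 < r)
    (h : z = r * Complex.exp ((2 * Real.pi * x : ℝ) * Complex.I)) :
    u (Complex.arg z / (2 * Real.pi)) = u x := by
  apply per_eq hu
  have h1 : (2 * Real.pi * (Complex.arg z / (2 * Real.pi)) : ℝ) = Complex.arg z := by
    field_simp
  rw [h1]
  have hz : ‖z‖ = r := by
    rw [h, norm_mul, Complex.norm_exp_ofReal_mul_I, mul_one, Complex.norm_real, Real.norm_eq_abs,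
      abs_of_pos hr]
  have h2 := Complex.norm_mul_exp_arg_mul_I z
  rw [hz] at h2
  have h3 : (r : ℂ) * Complex.exp (Complex.arg z * Complex.I) =
      r * Complex.exp ((2 * Real.pi * x : ℝ) * Complex.I) := by
    rw [h2]
    exact h
  exact mul_left_cancel₀ (by exact_mod_cast hr.ne') h3

lemma polar (z : ℂ) : z = ‖z‖ *
    Complex.exp ((2 * Real.pi * (Complex.arg z / (2 * Real.pi)) : ℝ) * Complex.I) := by
  have h1 : (2 * Real.pi * (Complex.arg z / (2 * Real.pi)) : ℝ) = Complex.arg z := by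
    field_simp
  rw [h1]
  exact (Complex.norm_mul_exp_arg_mul_I z).symm

lemma ang_fl (t : ℝ) (p : ℂ × F) : ang (fl F t p) = ang p := by
  unfold ang
  rw [fl_fst, Complex.arg_real_mul _ (Real.exp_pos _)]

lemma ang_rot {u : ℝ → ℝ} (hu : Function.Periodic u 1) (θ : ℝ) {p : ℂ × F} (hp : p.1 ≠ 0) :
    u (ang (rot θ p)) = u (ang p + θ) := by
  unfold ang
  refine arg_eq hu (r := ‖p.1‖) (norm_pos_iff.2 hp) ?_
  show Complex.exp ((2 * Real.pi * θ : ℝ) * Complex.I) * p.1 = _
  conv_lhs => rw [polar p.1]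
  rw [mul_comm, mul_assoc, ← Complex.exp_add]
  congr 2
  push_cast
  ring

/-! ### Translation along the flow by a function of the angle -/

/-- translation along the flow by a function of the angle -/
noncomputable def Th (u : ℝ → ℝ) (p : ℂ × F) : ℂ × F := fl F (u (ang p)) p

lemma Th_add (u v : ℝ → ℝ) (p : ℂ × F) : Th u (Th v p) = Th (fun x => u x + v x) p := by
  unfold Th
  rw [ang_fl, ← fl_add]

lemma Th_zero {u : ℝ → ℝ} (hu : ∀ x, u x = 0) (p : ℂ × F) : Th u p = p := by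
  unfold Th
  rw [hu, fl_zero_apply]

lemma Th_of_ge (u : ℝ → ℝ) {p : ℂ × F} (h : 1 ≤ gg p) : Th u p = p := fl_of_ge h _

lemma Th_lt (u : ℝ → ℝ) {p : ℂ × F} (h : gg p < 1) : gg (Th u p) < 1 := fl_lt h _

lemma Th_rot {u : ℝ → ℝ} (hu : Function.Periodic u 1) (θ : ℝ) (p : ℂ × F) :
    Th u (rot θ p) = rot θ (fl F (u (ang p + θ)) p) := by
  unfold Th
  by_cases hp : p.1 = 0
  · have h1 : Complex.normSq p.1 ≤ 1 / 4 := by
      rw [hp, map_zero]
      norm_num
    rw [fl_of_small h1, fl_of_small (by rw [normSq_rot]; exact h1)]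
  · rw [ang_rot hu θ hp, fl_rot]

lemma contDiffAt_ang {u : ℝ → ℝ} (hu : Function.Periodic u 1) {n : WithTop ℕ∞}
    (hc : ContDiff ℝ n u) {p : ℂ × F} (hp : p.1 ≠ 0) : ContDiffAt ℝ n (fun q => u (ang q)) p := by
  have h1 : ContDiffAt ℝ n (fun q : ℂ × F => (Complex.log (q.1 / p.1)).im) p := by
    have h2 : ContDiffAt ℝ n (fun q : ℂ × F => q.1 / p.1) p := by
      have h3 : (fun q : ℂ × F => q.1 / p.1) = fun q : ℂ × F => (p.1)⁻¹ * q.1 := by
        funext q
        rw [div_eq_inv_mul]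
      rw [h3]
      exact (contDiff_const.mul contDiff_fst).contDiffAt
    have h3 : ContDiffAt ℝ n Complex.log (p.1 / p.1) := by
      rw [div_self hp]
      exact (Complex.contDiffAt_log (n := n) Complex.one_mem_slitPlane).restrict_scalars ℝ
    have h4 : ContDiffAt ℝ n (fun q : ℂ × F => Complex.log (q.1 / p.1)) p :=
      ContDiffAt.comp (g := Complex.log) p h3 h2
    exact ContDiffAt.comp (g := fun z : ℂ => z.im) p contDiff_im.contDiffAt h4
  have h4 : ContDiffAt ℝ n
      (fun q : ℂ × F => u ((Complex.arg p.1 + (Complex.log (q.1 / p.1)).im) / (2 * Real.pi))) p :=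
    ContDiffAt.comp p hc.contDiffAt ((contDiffAt_const.add h1).div_const _)
  refine h4.congr_of_eventuallyEq ?_
  have h5 : ∀ᶠ q : ℂ × F in 𝓝 p, q.1 ≠ 0 :=
    (continuous_fst.continuousAt (x := p)).eventually_ne hp
  filter_upwards [h5] with q hq
  unfold ang
  refine arg_eq hu (r := ‖p.1‖ * ‖q.1 / p.1‖) ?_ ?_
  · have h6 : q.1 / p.1 ≠ 0 := div_ne_zero hq hp
    positivity
  · have h7 := Complex.norm_mul_exp_arg_mul_I p.1
    have h8 := Complex.norm_mul_exp_arg_mul_I (q.1 / p.1)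
    have h9 : q.1 = p.1 * (q.1 / p.1) := by
      field_simp
    conv_lhs => rw [h9, ← h8, ← h7]
    rw [h7, h8]
    have h10 : (2 * Real.pi * ((Complex.arg p.1 + (Complex.log (q.1 / p.1)).im) / (2 * Real.pi)) : ℝ)
        = Complex.arg p.1 + Complex.arg (q.1 / p.1) := by
      rw [Complex.log_im]
      field_simp
    rw [h10]
    push_cast
    rw [add_mul, Complex.exp_add]
    calc _ = (↑‖p.1‖ * Complex.exp (↑p.1.arg * Complex.I)) *
          (↑‖q.1 / p.1‖ * Complex.exp (↑(q.1 / p.1).arg * Complex.I)) := by rw [h7, h8]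
      _ = _ := by ring

lemma contDiff_Th {u : ℝ → ℝ} (hu : Function.Periodic u 1) {n : ℕ∞}
    (hc : ContDiff ℝ n u) : ContDiff ℝ n (Th u : ℂ × F → ℂ × F) := by
  rw [contDiff_iff_contDiffAt]
  intro p
  by_cases hp : p.1 = 0
  · refine contDiffAt_id.congr_of_eventuallyEq ?_
    have h1 : ∀ᶠ q : ℂ × F in 𝓝 p, Complex.normSq q.1 < 1 / 4 := by
      have h2 : Continuous fun q : ℂ × F => Complex.normSq q.1 :=
        Complex.continuous_normSq.comp continuous_fst
      refine (h2.tendsto p).eventually (gt_mem_nhds ?_)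
      rw [hp, map_zero]
      norm_num
    filter_upwards [h1] with q hq
    exact fl_of_small hq.le _
  · have h1 : ContDiffAt ℝ n (fun q : ℂ × F => (u (ang q), q)) p :=
      (contDiffAt_ang hu hc hp).prodMk contDiffAt_id
    have h2 : ContDiffAt ℝ n (fun q : ℝ × (ℂ × F) => fl F q.1 q.2) (u (ang p), p) :=
      (fl_contDiff.of_le (by exact_mod_cast le_top)).contDiffAt
    exact ContDiffAt.comp (g := fun q : ℝ × (ℂ × F) => fl F q.1 q.2)
      (f := fun q : ℂ × F => (u (ang q), q)) p h2 h1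

/-! ### The twisted rotation -/

/-- the amount of twist -/
noncomputable def tau (p : ℂ × F) : ℝ := Real.smoothTransition (2 - gg p)

lemma tau_one {p : ℂ × F} (h : gg p ≤ 1) : tau p = 1 :=
  Real.smoothTransition.one_of_one_le (by linarith)

lemma tau_zero {p : ℂ × F} (h : 2 ≤ gg p) : tau p = 0 :=
  Real.smoothTransition.zero_of_nonpos (by linarith)

lemma contDiff_tau {n : ℕ∞} : ContDiff ℝ n (tau : ℂ × F → ℝ) :=
  Real.smoothTransition.contDiff.comp (contDiff_const.sub contDiff_gg)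

/-- the twisted rotation -/
noncomputable def RR (c : ℝ) (p : ℂ × F) : ℂ × F := rot (c * tau p) p

lemma gg_RR (c : ℝ) (p : ℂ × F) : gg (RR c p) = gg p := gg_rot _ _

lemma tau_RR (c : ℝ) (p : ℂ × F) : tau (RR c p) = tau p := by
  unfold tau
  rw [gg_RR]

lemma RR_add (c d : ℝ) (p : ℂ × F) : RR c (RR d p) = RR (c + d) p := by
  have h1 : RR c (RR d p) = rot (c * tau (RR d p)) (RR d p) := rfl
  rw [h1, tau_RR]
  unfold RR
  rw [← rot_add, add_mul]

lemma RR_zero (p : ℂ × F) : RR 0 p = p := by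
  unfold RR
  rw [zero_mul, rot_zero]

lemma contDiff_RR (c : ℝ) {n : ℕ∞} : ContDiff ℝ n (RR c : ℂ × F → ℂ × F) := by
  unfold RR rot
  refine ContDiff.prodMk (ContDiff.mul ?_ contDiff_fst) contDiff_snd
  have h1 : ContDiff ℝ n (fun p : ℂ × F => ((2 * Real.pi * (c * tau p) : ℝ) : ℂ)) :=
    Complex.ofRealCLM.contDiff.comp (contDiff_const.mul (contDiff_const.mul contDiff_tau))
  exact (h1.mul contDiff_const).cexp

/-! ### The skew products -/

/-- the cocycle -/
noncomputable def SS (A : ℕ → ℝ) (n : ℕ) (x : ℝ) : ℝ := S A n x - n * ga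

lemma SS_zero (A : ℕ → ℝ) (x : ℝ) : SS A 0 x = 0 := by
  unfold SS
  rw [S_zero]
  simp

lemma SS_succ {A : ℕ → ℝ} (hA : ∀ j, |A j| ≤ 1) (n : ℕ) (x : ℝ) :
    SS A (n + 1) x = SS A n x + SS A 1 (x + n * al) := by
  unfold SS
  rw [S_succ hA]
  push_cast
  ring

lemma SS_per (A : ℕ → ℝ) (n : ℕ) : Function.Periodic (SS A n) 1 := by
  intro x
  unfold SS
  rw [S_per A n x]

lemma contDiff_SS {A : ℕ → ℝ} (hA : ∀ j, |A j| ≤ 1) {n : ℕ∞} : ContDiff ℝ n (SS A 1) :=
  ((contDiff_S hA).of_le (by exact_mod_cast le_top)).sub contDiff_const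

/-- the map of a sequence -/
noncomputable def TT (a : ℕ → ℝ) (p : ℂ × F) : ℂ × F := RR al (Th (SS (amp a) 1) p)

/-- the inverse map -/
noncomputable def TT' (a : ℕ → ℝ) (p : ℂ × F) : ℂ × F := Th (fun x => - SS (amp a) 1 x) (RR (-al) p)

lemma TT'_TT (a : ℕ → ℝ) (p : ℂ × F) : TT' a (TT a p) = p := by
  unfold TT' TT
  rw [RR_add, neg_add_cancel, RR_zero, Th_add]
  exact Th_zero (fun x => by ring) p

lemma TT_TT' (a : ℕ → ℝ) (p : ℂ × F) : TT a (TT' a p) = p := by
  unfold TT' TT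
  rw [Th_add, Th_zero (fun x => by ring), RR_add, add_neg_cancel, RR_zero]

lemma per_neg {u : ℝ → ℝ} (hu : Function.Periodic u 1) : Function.Periodic (fun x => - u x) 1 := by
  intro x
  show - u (x + 1) = - u x
  rw [hu x]

lemma contDiff_TT (a : ℕ → ℝ) {n : ℕ∞} : ContDiff ℝ n (TT a : ℂ × F → ℂ × F) :=
  (contDiff_RR al).comp (contDiff_Th (SS_per _ 1) (contDiff_SS (abs_amp a)))

lemma contDiff_TT' (a : ℕ → ℝ) {n : ℕ∞} : ContDiff ℝ n (TT' a : ℂ × F → ℂ × F) :=
  (contDiff_Th (per_neg (SS_per _ 1)) (contDiff_SS (abs_amp a)).neg).comp (contDiff_RR (-al))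

lemma TT_of_ge (a : ℕ → ℝ) {p : ℂ × F} (h : 1 ≤ gg p) : TT a p = RR al p := by
  unfold TT
  rw [Th_of_ge _ h]

lemma TT_of_lt (a : ℕ → ℝ) {p : ℂ × F} (h : gg p < 1) :
    TT a p = rot al (fl F (SS (amp a) 1 (ang p)) p) := by
  unfold TT RR
  rw [tau_one (Th_lt _ h).le, mul_one]
  rfl

lemma TT_off (a : ℕ → ℝ) {p : ℂ × F} (h : 2 < gg p) : TT a p = p := by
  rw [TT_of_ge a (by linarith)]
  unfold RR
  rw [tau_zero h.le, mul_zero, rot_zero]

lemma TT'_off (a : ℕ → ℝ) {p : ℂ × F} (h : 2 < gg p) : TT' a p = p := by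
  have h1 := TT'_TT a p
  rwa [TT_off a h] at h1

lemma Th_off (u : ℝ → ℝ) {p : ℂ × F} (h : 2 < gg p) : Th u p = p := Th_of_ge u (by linarith)

/-- iterates inside the unit ball -/
lemma TT_iter (a : ℕ → ℝ) (n : ℕ) {p : ℂ × F} (h : gg p < 1) :
    (TT a)^[n] p = rot (n * al) (fl F (SS (amp a) n (ang p)) p) := by
  induction n with
  | zero =>
    rw [SS_zero, fl_zero_apply]
    simp [rot_zero]
  | succ n ih =>
    rw [Function.iterate_succ_apply', ih]
    have h1 : gg (rot (n * al) (fl F (SS (amp a) n (ang p)) p)) < 1 := by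
      rw [gg_rot]
      exact fl_lt h _
    have h2 := TT_of_lt a h1
    have h3 := Th_rot (SS_per (amp a) 1) (n * al) (fl F (SS (amp a) n (ang p)) p)
    unfold Th at h3
    rw [h2, h3, ang_fl, ← fl_add, ← rot_add, SS_succ (abs_amp a) n (ang p)]
    congr 1
    · push_cast
      ring
    · rw [add_comm]

/-- iterates outside of the unit ball -/
lemma TT_iter_ge (a : ℕ → ℝ) (n : ℕ) {p : ℂ × F} (h : 1 ≤ gg p) :
    (TT a)^[n] p = RR (n * al) p := by
  induction n with
  | zero =>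
    simp [RR_zero]
  | succ n ih =>
    rw [Function.iterate_succ_apply', ih, TT_of_ge a (by rw [gg_RR]; exact h), RR_add]
    congr 1
    push_cast
    ring

/-- close sequences give conjugate maps -/
lemma TT_conj {x y : ℕ → ℝ} (h : Summable fun n => |x n - y n|) (p : ℂ × F) :
    Th (cj x y) (TT x p) = TT y (Th (cj x y) p) := by
  by_cases hp : 1 ≤ gg p
  · rw [TT_of_ge x hp, Th_of_ge _ (by rw [gg_RR]; exact hp), Th_of_ge _ hp, TT_of_ge y hp]
  · rw [not_le] at hp
    have h1 := Th_rot (cj_per x y) al (fl F (SS (amp x) 1 (ang p)) p)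
    rw [TT_of_lt x hp, h1, TT_of_lt y (Th_lt _ hp), ang_fl]
    unfold Th
    rw [ang_fl, ← fl_add, ← fl_add]
    have h2 := cj_eq h (ang p)
    have h3 : cj x y (ang p + al) + SS (amp x) 1 (ang p) =
        SS (amp y) 1 (ang p) + cj x y (ang p) := by
      unfold SS
      linarith
    rw [h3]

/-- dependence on the sequence -/
lemma continuous_TT (p : ℂ × F) : Continuous fun a : ℕ → ℝ => TT a p := by
  have h1 : Continuous fun a : ℕ → ℝ => SS (amp a) 1 (ang p) := by
    refine Continuous.sub (continuous_S_amp abs_amp (fun j => ?_) 1 (ang p)) continuous_const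
    unfold amp
    fun_prop
  have h2 : Continuous (RR al : ℂ × F → ℂ × F) := (contDiff_RR (n := 0) al).continuous
  exact h2.comp ((continuous_fl p).comp h1)

end Pool.Agent.Y567.DF
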