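import Mathlib
import Pool.Agent.Y567.DF.Twist

/-!
# Periodic points, and convergence along the special times
-/

set_option autoImplicit false
set_option linter.unusedSectionVars false

open Filter Topology Set
open scoped ContDiff

namespace Pool.Agent.Y567.DF

open Pool.Agent.Y567.NC (al ga S amp cj Q NN nr al_irr abs_amp S_N inc_N N0 N_sum tendsto_half inc)

variable {F : Type} [NormedAddCommGroup F] [InnerProductSpace ℝ F] [FiniteDimensional ℝ F]

/-! ### Periodic points -/

lemma not_periodic (a : ℕ → ℝ) {p : ℂ × F} (h : gg p < 1) (hp : p.1 ≠ 0) {n : ℕ} (hn : 0 < n) :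
    (TT a)^[n] p ≠ p := by
  intro h1
  rw [TT_iter a n h] at h1
  have h2 : Complex.exp ((2 * Real.pi * (n * al) : ℝ) * Complex.I) *
      (((Real.exp (lam (SS (amp a) n (ang p)) p) : ℝ) : ℂ) * p.1) = p.1 := by
    have := congrArg Prod.fst h1
    unfold rot at this
    simp only at this
    rw [fl_fst] at this
    exact this
  have h3 : Complex.exp ((2 * Real.pi * (n * al) : ℝ) * Complex.I) *
      ((Real.exp (lam (SS (amp a) n (ang p)) p) : ℝ) : ℂ) = 1 := by
    have h4 : (Complex.exp ((2 * Real.pi * (n * al) : ℝ) * Complex.I) *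
      ((Real.exp (lam (SS (amp a) n (ang p)) p) : ℝ) : ℂ)) * p.1 = 1 * p.1 := by
      rw [one_mul, mul_assoc]
      exact h2
    exact mul_right_cancel₀ hp h4
  have h5 : Real.exp (lam (SS (amp a) n (ang p)) p) = 1 := by
    have := congrArg norm h3
    rw [norm_mul, Complex.norm_exp_ofReal_mul_I, one_mul, norm_one, Complex.norm_real,
      Real.norm_eq_abs, abs_of_pos (Real.exp_pos _)] at this
    exact this
  rw [h5, Complex.ofReal_one, mul_one, Complex.exp_eq_one_iff] at h3
  obtain ⟨m, hm⟩ := h3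
  have h6 : ((2 * Real.pi * (n * al) : ℝ) : ℂ) = ((m * (2 * Real.pi) : ℝ) : ℂ) := by
    have : ((2 * Real.pi * (n * al) : ℝ) : ℂ) * Complex.I =
        ((m * (2 * Real.pi) : ℝ) : ℂ) * Complex.I := by
      rw [hm]
      push_cast
      ring
    exact mul_right_cancel₀ Complex.I_ne_zero this
  have h7 : 2 * Real.pi * (n * al) = m * (2 * Real.pi) := by exact_mod_cast h6
  have h8 : (n : ℝ) * al = m := by
    have : 2 * Real.pi * (n * al) = 2 * Real.pi * m := by
      rw [h7]
      ring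
    exact mul_left_cancel₀ (by positivity) this
  have h9 : Irrational ((n : ℝ) * al) := al_irr.natCast_mul hn.ne'
  exact h9 ⟨m, by rw [h8]; simp⟩

lemma glue_strictMono {x y : ℝ} (hx : 0 < x) (hxy : x < y) : expNegInvGlue x < expNegInvGlue y := by
  unfold expNegInvGlue
  rw [if_neg (not_le.2 hx), if_neg (not_le.2 (hx.trans hxy)), Real.exp_lt_exp, neg_lt_neg_iff]
  exact inv_strictAnti₀ hx hxy

lemma trans_lt {x y : ℝ} (hx : 0 < x) (hxy : x < y) (hy : y ≤ 1) :
    Real.smoothTransition x < Real.smoothTransition y := by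
  unfold Real.smoothTransition
  have h1 := glue_strictMono hx hxy
  have hx0 : 0 < expNegInvGlue x := expNegInvGlue.pos_of_pos hx
  have h2 : expNegInvGlue (1 - y) ≤ expNegInvGlue (1 - x) := expNegInvGlue.monotone (by linarith)
  have h3 : 0 ≤ expNegInvGlue (1 - y) := expNegInvGlue.nonneg _
  have h4 : 0 < expNegInvGlue (1 - x) := expNegInvGlue.pos_of_pos (by linarith)
  rw [div_lt_div_iff₀ (by linarith) (by linarith)]
  nlinarith

/-- The periodic points are dense in the twist region. -/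
lemma periodic_dense (a : ℕ → ℝ) {p : ℂ × F} (h1 : 1 ≤ gg p) (h2 : gg p < 2) :
    p ∈ closure {q : ℂ × F | ∃ n : ℕ, 0 < n ∧ (TT a)^[n] q = q} := by
  rw [mem_closure_iff_nhds]
  intro U hU
  have hgs : ∀ t : ℝ, gg (t • p) = t ^ 2 * gg p := by
    intro t
    unfold gg
    rw [Prod.smul_fst, Prod.smul_snd, norm_smul, mul_pow, Real.norm_eq_abs, sq_abs,
      Complex.real_smul, Complex.normSq_mul, Complex.normSq_ofReal]
    ring
  have hc : Continuous fun t : ℝ => t • p := continuous_id.smul continuous_const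
  have hgc : Continuous fun t : ℝ => gg (t • p) := (contDiff_gg (n := 0)).continuous.comp hc
  have e1 : ∀ᶠ t : ℝ in 𝓝 1, t • p ∈ U := by
    have : (1 : ℝ) • p = p := one_smul _ _
    apply (hc.tendsto 1).eventually
    rw [this]
    exact hU
  have e2 : ∀ᶠ t : ℝ in 𝓝 1, gg (t • p) < 2 := by
    refine (hgc.tendsto 1).eventually (p := fun s => s < 2) ?_
    rw [one_smul]
    exact gt_mem_nhds h2
  obtain ⟨ε, hε, hball⟩ := Metric.eventually_nhds_iff_ball.1 (e1.and e2)
  set t1 : ℝ := 1 + ε / 2 with ht1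
  have ht : ∀ t ∈ Icc 1 t1, t • p ∈ U ∧ gg (t • p) < 2 ∧ 1 ≤ gg (t • p) := by
    intro t ht
    have h3 := hball t (by
      rw [Metric.mem_ball, Real.dist_eq, abs_lt]
      constructor <;> linarith [ht.1, ht.2])
    refine ⟨h3.1, h3.2, ?_⟩
    rw [hgs]
    have := ht.1
    nlinarith
  have hal : al ≠ 0 := by
    intro h
    exact al_irr.ne_zero h
  have htau : tau (t1 • p) < tau p := by
    unfold tau
    have h3 := ht t1 ⟨by linarith, le_rfl⟩
    have h4 : gg p < gg (t1 • p) := by
      rw [hgs]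
      have : 1 < t1 := by linarith
      have h5 : 1 < t1 ^ 2 := by nlinarith
      nlinarith
    exact trans_lt (by linarith) (by linarith) (by linarith)
  have hcont : Continuous fun t : ℝ => al * tau (t • p) :=
    continuous_const.mul ((contDiff_tau (n := 0)).continuous.comp hc)
  have hne : al * tau (t1 • p) ≠ al * tau ((1 : ℝ) • p) := by
    rw [one_smul]
    intro h
    have := mul_left_cancel₀ hal h
    linarith
  have hrat : ∃ c : ℚ, (c : ℝ) ∈ uIcc (al * tau ((1 : ℝ) • p)) (al * tau (t1 • p)) := by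
    rcases lt_or_gt_of_ne hne with h | h
    · obtain ⟨c, hc1, hc2⟩ := exists_rat_btwn h
      exact ⟨c, by rw [uIcc_of_ge h.le]; exact ⟨hc1.le, hc2.le⟩⟩
    · obtain ⟨c, hc1, hc2⟩ := exists_rat_btwn h
      exact ⟨c, by rw [uIcc_of_le h.le]; exact ⟨hc1.le, hc2.le⟩⟩
  obtain ⟨c, hcm⟩ := hrat
  obtain ⟨t, ht2, hct⟩ := intermediate_value_uIcc (hcont.continuousOn (s := uIcc 1 t1)) hcm
  rw [uIcc_of_le (by linarith)] at ht2
  obtain ⟨k1, k2, k3⟩ := ht t ht2
  refine ⟨t • p, k1, c.den, c.pos, ?_⟩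
  rw [TT_iter_ge a _ k3]
  unfold RR
  have h5 : (c.den : ℝ) * al * tau (t • p) = ((c.num : ℤ) : ℝ) := by
    have h6 : al * tau (t • p) = (c : ℝ) := hct
    rw [mul_assoc, h6]
    have h7 := Rat.den_mul_eq_num c
    exact_mod_cast h7
  rw [h5, rot_int]

/-! ### Special times -/

/-- the error term -/
noncomputable def er (k : ℕ) : ℝ :=
  2 * Real.pi * (∑' j, if j = k then 0 else nr (Q j * NN k * al)) + 2 * Real.pi * (1 / 2) ^ k

lemma er_tendsto : Tendsto er atTop (𝓝 0) := by
  have h := (N_sum.const_mul (2 * Real.pi)).add (tendsto_half (2 * Real.pi))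
  rw [mul_zero, add_zero] at h
  exact h

lemma SS_N {A : ℕ → ℝ} (hA : ∀ j, |A j| ≤ 1) {k : ℕ} (hk : 3 ≤ k) (x : ℝ) :
    |SS A (NN k) x + 2 * A k * Real.cos (2 * Real.pi * (Q k * x))| ≤ er k := by
  have h1 := S_N hA hk x
  have h2 := inc_N hk x
  have h3 : SS A (NN k) x + 2 * A k * Real.cos (2 * Real.pi * (Q k * x)) =
      (S A (NN k) x - NN k * ga - A k * inc k (NN k) x) +
        A k * (inc k (NN k) x + 2 * Real.cos (2 * Real.pi * (Q k * x))) := by
    unfold SS
    ring
  rw [h3]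
  refine (abs_add_le _ _).trans ?_
  unfold er
  have h4 : |A k * (inc k (NN k) x + 2 * Real.cos (2 * Real.pi * (Q k * x)))| ≤
      2 * Real.pi * (1 / 2) ^ k := by
    rw [abs_mul]
    have h5 := hA k
    have h6 := abs_nonneg (inc k (NN k) x + 2 * Real.cos (2 * Real.pi * (Q k * x)))
    nlinarith [abs_nonneg (A k)]
  linarith

lemma continuous_rot_fl (p : ℂ × F) : Continuous fun q : ℝ × ℝ => rot q.1 (fl F q.2 p) := by
  have h1 : Continuous fun q : ℝ × ℝ => fl F q.2 p := (continuous_fl p).comp continuous_snd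
  unfold rot
  refine Continuous.prodMk (Continuous.mul ?_ h1.fst) h1.snd
  refine Complex.continuous_exp.comp (Continuous.mul ?_ continuous_const)
  exact Complex.continuous_ofReal.comp (continuous_const.mul continuous_fst)

lemma rot_sub_round (θ : ℝ) (p : ℂ × F) : rot θ p = rot (θ - round θ) p := by
  have h1 : rot θ p = rot ((θ - round θ) + round θ) p := by
    rw [sub_add_cancel]
  rw [h1, rot_add, rot_int]

/-- convergence along the special times -/
lemma tendsto_iter {a : ℕ → ℝ} {κ : ℕ → ℕ} (hκ : Tendsto κ atTop atTop) {p : ℂ × F}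
    (hp : gg p < 1) {s : ℝ} (hs : Tendsto
      (fun N => 2 * amp a (κ N) * Real.cos (2 * Real.pi * (Q (κ N) * ang p))) atTop (𝓝 (-s))) :
    Tendsto (fun N => (TT a)^[NN (κ N)] p) atTop (𝓝 (fl F s p)) := by
  have h1 : Tendsto (fun N => SS (amp a) (NN (κ N)) (ang p)) atTop (𝓝 s) := by
    have h2 : Tendsto (fun N => SS (amp a) (NN (κ N)) (ang p) +
        2 * amp a (κ N) * Real.cos (2 * Real.pi * (Q (κ N) * ang p))) atTop (𝓝 0) := by
      refine squeeze_zero_norm' ?_ (er_tendsto.comp hκ)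
      filter_upwards [hκ.eventually_ge_atTop 3] with N hN
      exact SS_N (abs_amp a) hN _
    have h3 := h2.sub hs
    simpa using h3
  have h4 : Tendsto (fun N => (NN (κ N) : ℝ) * al - round ((NN (κ N) : ℝ) * al)) atTop (𝓝 0) := by
    refine squeeze_zero_norm' ?_ ((tendsto_half (1 : ℝ)).comp hκ)
    filter_upwards [hκ.eventually_ge_atTop 3] with N hN
    have := N0 hN
    simpa [nr] using this
  have h5 := ((continuous_rot_fl p).tendsto ((0 : ℝ), s)).comp (h4.prodMk_nhds h1)
  simp only [rot_zero] at h5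
  refine h5.congr fun N => ?_
  rw [TT_iter a _ hp, rot_sub_round]
  rfl

lemma amp_zero {x : ℕ → ℝ} {κ : ℕ → ℕ} (h : Tendsto (fun N => x (κ N)) atTop (𝓝 0)) :
    Tendsto (fun N => amp x (κ N)) atTop (𝓝 0) := by
  have h2 : Tendsto (fun N => (1 - Real.cos (x (κ N))) / 8) atTop (𝓝 ((1 - Real.cos 0) / 8)) :=
    (((Real.continuous_cos.tendsto 0).comp h).const_sub 1).div_const 8
  simpa [amp] using h2

lemma amp_pi {y : ℕ → ℝ} {κ : ℕ → ℕ} (h : Tendsto (fun N => y (κ N)) atTop (𝓝 Real.pi)) :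
    Tendsto (fun N => amp y (κ N)) atTop (𝓝 (1 / 4)) := by
  have h2 : Tendsto (fun N => (1 - Real.cos (y (κ N))) / 8) atTop
      (𝓝 ((1 - Real.cos Real.pi) / 8)) :=
    (((Real.continuous_cos.tendsto Real.pi).comp h).const_sub 1).div_const 8
  rw [Real.cos_pi] at h2
  have e : ((1 : ℝ) - -1) / 8 = 1 / 4 := by norm_num
  rw [e] at h2
  exact h2

/-- the times `NN k` are rigidity times inside the ball if the amplitudes are small -/
lemma tendsto_rigid {x : ℕ → ℝ} {κ : ℕ → ℕ} (hκ : Tendsto κ atTop atTop)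
    (h : Tendsto (fun N => x (κ N)) atTop (𝓝 0)) {p : ℂ × F} (hp : gg p < 1) :
    Tendsto (fun N => (TT x)^[NN (κ N)] p) atTop (𝓝 p) := by
  have h1 : Tendsto (fun N => 2 * amp x (κ N) * Real.cos (2 * Real.pi * (Q (κ N) * ang p)))
      atTop (𝓝 (-0)) := by
    have h2 := (amp_zero h).const_mul 2
    rw [mul_zero] at h2
    rw [neg_zero]
    refine squeeze_zero_norm (fun N => ?_) ((h2.abs).trans (by rw [abs_zero]))
    rw [norm_mul, Real.norm_eq_abs, Real.norm_eq_abs]
    have := Real.abs_cos_le_one (2 * Real.pi * (Q (κ N) * ang p))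
    have h3 := abs_nonneg (2 * amp x (κ N))
    nlinarith
  have h2 := tendsto_iter hκ hp h1
  rwa [fl_zero_apply] at h2

/-- the base point is moved if the amplitudes are large -/
lemma tendsto_move {y : ℕ → ℝ} {κ : ℕ → ℕ} (hκ : Tendsto κ atTop atTop)
    (h : Tendsto (fun N => y (κ N)) atTop (𝓝 Real.pi)) :
    Tendsto (fun N => (TT y)^[NN (κ N)] (q0 (F := F))) atTop (𝓝 (fl F (-(1 / 2)) q0)) := by
  refine tendsto_iter hκ (by rw [gg_q0]; norm_num) ?_
  have h1 : ang (q0 (F := F)) = 0 := by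
    unfold ang q0
    simp only
    rw [Complex.arg_ofReal_of_nonneg (by norm_num), zero_div]
  rw [h1]
  simp only [mul_zero, Real.cos_zero, mul_one]
  have h2 := (amp_pi h).const_mul 2
  refine h2.trans (le_of_eq ?_)
  norm_num

end Pool.Agent.Y567.DF
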