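import Mathlib
import Pool.Agent.Y567.DF.Per
import Pool.Agent.H410R3.KS.Defs

/-!
# Transplantation into a chart
-/

set_option autoImplicit false
set_option linter.unusedSectionVars false

open Filter Topology Set
open scoped ContDiff Manifold

namespace Pool.Agent.Y567.DF

open Pool.Agent.Y567.NC (al ga S amp cj Q NN cj_per cj_cont al_irr abs_amp)

variable {F : Type} [NormedAddCommGroup F] [InnerProductSpace ℝ F] [FiniteDimensional ℝ F]

/-- the closed ball -/
def KK (F : Type) [NormedAddCommGroup F] : Set (ℂ × F) := {q | gg q ≤ 2}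

/-- `T` preserves the closed ball and is the identity outside -/
structure Sp (T : ℂ × F → ℂ × F) : Prop where
  maps : ∀ q, gg q ≤ 2 → gg (T q) ≤ 2
  off : ∀ q, 2 < gg q → T q = q

lemma sp_of_inv {T T' : ℂ × F → ℂ × F} (h : ∀ q, T' (T q) = q) (h1 : ∀ q, 2 < gg q → T q = q)
    (h2 : ∀ q, 2 < gg q → T' q = q) : Sp T := by
  refine ⟨fun q hq => ?_, h1⟩
  by_contra hn
  rw [not_le] at hn
  have h3 := h2 _ hn
  rw [h] at h3
  rw [← h3] at hn
  linarith

lemma sp_TT (a : ℕ → ℝ) : Sp (TT a : ℂ × F → ℂ × F) :=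
  sp_of_inv (TT'_TT a) (fun _ h => TT_off a h) (fun _ h => TT'_off a h)

lemma sp_TT' (a : ℕ → ℝ) : Sp (TT' a : ℂ × F → ℂ × F) :=
  sp_of_inv (TT_TT' a) (fun _ h => TT'_off a h) (fun _ h => TT_off a h)

lemma Th_inv (u : ℝ → ℝ) (p : ℂ × F) : Th (fun x => - u x) (Th u p) = p := by
  rw [Th_add]
  exact Th_zero (fun x => by ring) p

lemma Th_inv' (u : ℝ → ℝ) (p : ℂ × F) : Th u (Th (fun x => - u x) p) = p := by
  rw [Th_add]
  exact Th_zero (fun x => by ring) p

lemma sp_Th (u : ℝ → ℝ) : Sp (Th u : ℂ × F → ℂ × F) :=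
  sp_of_inv (Th_inv u) (fun _ h => Th_off u h) (fun _ h => Th_off _ h)

lemma isCompact_KK : IsCompact (KK F) := by
  refine (isCompact_closedBall (0 : ℂ × F) 2).of_isClosed_subset ?_ ?_
  · exact isClosed_le (contDiff_gg (n := 0)).continuous continuous_const
  · intro q hq
    rw [mem_closedBall_zero_iff]
    refine norm_le_of_gg (by norm_num) ?_
    have : gg q ≤ 2 := hq
    linarith

section trans

variable {M : Type} [TopologicalSpace M] [T2Space M] (φ : OpenPartialHomeomorph M (ℂ × F))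

open Classical in
/-- the transplanted map -/
noncomputable def tr (T : ℂ × F → ℂ × F) (m : M) : M :=
  if m ∈ φ.source then φ.symm (T (φ m)) else m

variable {φ}

lemma tr_of_mem {T : ℂ × F → ℂ × F} {m : M} (hm : m ∈ φ.source) : tr φ T m = φ.symm (T (φ m)) := by
  unfold tr
  rw [if_pos hm]

lemma tr_of_not_mem {T : ℂ × F → ℂ × F} {m : M} (hm : m ∉ φ.source) : tr φ T m = m := by
  unfold tr
  rw [if_neg hm]

lemma tr_symm {T : ℂ × F → ℂ × F} {q : ℂ × F} (hq : q ∈ φ.target) :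
    tr φ T (φ.symm q) = φ.symm (T q) := by
  rw [tr_of_mem (φ.map_target hq), φ.right_inv hq]

variable (hφ : KK F ⊆ φ.target)

include hφ in
lemma mem_target {T : ℂ × F → ℂ × F} (hT : Sp T) {q : ℂ × F} (hq : q ∈ φ.target) :
    T q ∈ φ.target := by
  by_cases h : gg q ≤ 2
  · exact hφ (hT.maps q h)
  · rw [hT.off q (not_le.1 h)]
    exact hq

include hφ in
lemma tr_comp {T T' : ℂ × F → ℂ × F} (hT' : Sp T') (m : M) :
    tr φ T (tr φ T' m) = tr φ (fun q => T (T' q)) m := by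
  by_cases hm : m ∈ φ.source
  · rw [tr_of_mem hm, tr_of_mem hm, tr_symm (mem_target hφ hT' (φ.map_source hm))]
  · rw [tr_of_not_mem hm, tr_of_not_mem hm, tr_of_not_mem hm]

lemma tr_id {T : ℂ × F → ℂ × F} (h : ∀ q, T q = q) (m : M) : tr φ T m = m := by
  by_cases hm : m ∈ φ.source
  · rw [tr_of_mem hm, h, φ.left_inv hm]
  · exact tr_of_not_mem hm

include hφ in
/-- away from the chart the map is the identity -/
lemma tr_off {T : ℂ × F → ℂ × F} (hT : Sp T) {m : M} (hm : m ∉ φ.source) :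
    tr φ T =ᶠ[𝓝 m] id := by
  have hc : IsCompact (φ.symm '' KK F) :=
    isCompact_KK.image_of_continuousOn (φ.continuousOn_symm.mono hφ)
  have hm2 : m ∉ φ.symm '' KK F := by
    rintro ⟨q, hq, rfl⟩
    exact hm (φ.map_target (hφ hq))
  filter_upwards [hc.isClosed.isOpen_compl.mem_nhds hm2] with z hz
  by_cases h : z ∈ φ.source
  · rw [tr_of_mem h]
    have h1 : 2 < gg (φ z) := by
      by_contra h2
      exact hz ⟨φ z, not_lt.1 h2, φ.left_inv h⟩
    rw [hT.off _ h1, φ.left_inv h]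
    rfl
  · exact tr_of_not_mem h

include hφ in
lemma tr_continuous {T : ℂ × F → ℂ × F} (hT : Sp T) (hc : Continuous T) :
    Continuous (tr φ T) := by
  rw [continuous_iff_continuousAt]
  intro m
  by_cases hm : m ∈ φ.source
  · have h1 : ContinuousAt (fun z => φ.symm (T (φ z))) m := by
      refine ContinuousAt.comp (g := φ.symm) ?_ ((hc.continuousAt).comp (φ.continuousAt hm))
      exact φ.continuousAt_symm (mem_target hφ hT (φ.map_source hm))
    refine h1.congr ?_
    filter_upwards [φ.open_source.mem_nhds hm] with z hz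
    exact (tr_of_mem hz).symm
  · exact continuousAt_id.congr (tr_off hφ hT hm).symm

include hφ in
lemma tr_iter {T : ℂ × F → ℂ × F} (hT : Sp T) (n : ℕ) {q : ℂ × F} (hq : q ∈ φ.target) :
    (tr φ T)^[n] (φ.symm q) = φ.symm (T^[n] q) ∧ T^[n] q ∈ φ.target := by
  induction n with
  | zero => exact ⟨rfl, hq⟩
  | succ n ih =>
    rw [Function.iterate_succ_apply', Function.iterate_succ_apply', ih.1, tr_symm ih.2]
    exact ⟨rfl, mem_target hφ hT ih.2⟩

/-! ### The distinguishing invariant -/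

include hφ in
lemma dichotomy (a : ℕ → ℝ) (m : M) : (∃ q : ℂ × F, gg q < 1 ∧ m = φ.symm q) ∨
    m ∈ closure {z : M | ∃ n : ℕ, 0 < n ∧ (tr φ (TT a))^[n] z = z} := by
  by_cases hm : m ∈ φ.source
  swap
  · right
    apply subset_closure
    exact ⟨1, one_pos, tr_of_not_mem hm⟩
  by_cases h1 : gg (φ m) < 1
  · left
    exact ⟨φ m, h1, (φ.left_inv hm).symm⟩
  rw [not_lt] at h1
  right
  by_cases h2 : gg (φ m) < 2
  · have h3 := periodic_dense a h1 h2
    have h4 : φ m ∈ closure ({q : ℂ × F | ∃ n : ℕ, 0 < n ∧ (TT a)^[n] q = q} ∩ φ.target) := by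
      rw [mem_closure_iff_nhds] at h3 ⊢
      intro t ht
      obtain ⟨q, hq1, hq2⟩ := h3 (t ∩ φ.target) (inter_mem ht
        (φ.open_target.mem_nhds (φ.map_source hm)))
      exact ⟨q, hq1.1, hq2, hq1.2⟩
    have h5 := mem_closure_image (f := φ.symm)
      (φ.continuousAt_symm (φ.map_source hm)) h4
    rw [φ.left_inv hm] at h5
    refine closure_mono ?_ h5
    rintro _ ⟨q, ⟨⟨n, hn, hq⟩, hq2⟩, rfl⟩
    refine ⟨n, hn, ?_⟩
    rw [(tr_iter hφ (sp_TT a) n hq2).1, hq]
  · rw [not_lt] at h2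
    apply subset_closure
    refine ⟨1, one_pos, ?_⟩
    show tr φ (TT a) m = m
    rw [tr_of_mem hm, TT_of_ge a (by linarith)]
    unfold RR
    rw [tau_zero h2, mul_zero, rot_zero, φ.left_inv hm]

include hφ in
lemma inside (a : ℕ → ℝ) : φ.symm (q0 (F := F)) ∉
    closure {z : M | ∃ n : ℕ, 0 < n ∧ (tr φ (TT a))^[n] z = z} := by
  have hO : IsOpen {q : ℂ × F | gg q < 1 ∧ q.1 ≠ 0} := by
    refine IsOpen.inter (isOpen_lt (contDiff_gg (n := 0)).continuous continuous_const) ?_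
    exact isOpen_ne.preimage continuous_fst
  have hsub : {q : ℂ × F | gg q < 1 ∧ q.1 ≠ 0} ⊆ φ.target := by
    intro q hq
    apply hφ
    have := hq.1
    show gg q ≤ 2
    linarith
  have hU := φ.isOpen_image_symm_of_subset_target hO hsub
  intro h
  rw [mem_closure_iff] at h
  obtain ⟨z, ⟨q, hq, rfl⟩, n, hn, hz⟩ := h _ hU ⟨q0, ⟨by rw [gg_q0]; norm_num, by
    intro h0
    have := normSq_q0 (F := F)
    rw [h0, map_zero] at this
    norm_num at this⟩, rfl⟩
  obtain ⟨h1, h2⟩ := tr_iter hφ (sp_TT a) n (hsub hq)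
  rw [h1] at hz
  have h3 := φ.symm.injOn (x₁ := (TT a)^[n] q) (x₂ := q) h2 (hsub hq) hz
  exact not_periodic a hq.1 hq.2 hn h3

include hφ in
/-- The maps of a generic pair of sequences are not conjugate. -/
theorem not_conj {x y : ℕ → ℝ}
    (hxy : ∀ N : ℕ, ∃ k, N ≤ k ∧ |x k| ≤ 1 / (N + 1) ∧ |y k - Real.pi| ≤ 1 / (N + 1))
    (h : M ≃ₜ M) (hc : ∀ m, h (tr φ (TT x) m) = tr φ (TT y) (h m)) : False := by
  choose κ hκ1 hκ2 hκ3 using hxy
  have hκ : Tendsto κ atTop atTop := tendsto_atTop_mono hκ1 tendsto_id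
  have hx : Tendsto (fun N => x (κ N)) atTop (𝓝 0) :=
    squeeze_zero_norm hκ2 tendsto_one_div_add_atTop_nhds_zero_nat
  have hy : Tendsto (fun N => y (κ N)) atTop (𝓝 Real.pi) := by
    have h0 : Tendsto (fun N => y (κ N) - Real.pi) atTop (𝓝 0) :=
      squeeze_zero_norm hκ3 tendsto_one_div_add_atTop_nhds_zero_nat
    simpa using h0.add_const Real.pi
  have hiter : ∀ (n : ℕ) (m : M), h ((tr φ (TT x))^[n] m) = (tr φ (TT y))^[n] (h m) := by
    intro n
    induction n with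
    | zero => exact fun m => rfl
    | succ n ih =>
      intro m
      rw [Function.iterate_succ_apply', Function.iterate_succ_apply', hc, ih]
  have hq0 : (q0 (F := F)) ∈ φ.target := hφ (by
    show gg q0 ≤ 2
    rw [gg_q0]
    norm_num)
  obtain ⟨q, hq1, hq2⟩ : ∃ q : ℂ × F, gg q < 1 ∧ h.symm (φ.symm q0) = φ.symm q := by
    rcases dichotomy hφ x (h.symm (φ.symm q0)) with h1 | h1
    · exact h1
    · exfalso
      apply inside hφ y
      have h2 := mem_closure_image (f := h) h.continuous.continuousAt h1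
      rw [h.apply_symm_apply] at h2
      refine closure_mono ?_ h2
      rintro _ ⟨z, ⟨n, hn, hz⟩, rfl⟩
      refine ⟨n, hn, ?_⟩
      rw [← hiter, hz]
  have hqt : q ∈ φ.target := hφ (by
    show gg q ≤ 2
    linarith)
  have h3 : Tendsto (fun N => φ.symm ((TT x)^[NN (κ N)] q)) atTop (𝓝 (φ.symm q)) :=
    (φ.continuousAt_symm hqt).tendsto.comp (tendsto_rigid hκ hx hq1)
  have h4 : Tendsto (fun N => h (φ.symm ((TT x)^[NN (κ N)] q))) atTop (𝓝 (φ.symm q0)) := by
    have h5 := (h.continuous.tendsto (φ.symm q)).comp h3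
    rw [← hq2, h.apply_symm_apply] at h5
    exact h5
  have hmt : fl F (-(1 / 2)) q0 ∈ φ.target := hφ (by
    have := fl_lt (p := q0 (F := F)) (by rw [gg_q0]; norm_num) (-(1 / 2))
    show gg _ ≤ 2
    linarith)
  have h6 : Tendsto (fun N => φ.symm ((TT y)^[NN (κ N)] q0)) atTop
      (𝓝 (φ.symm (fl F (-(1 / 2)) q0))) :=
    (φ.continuousAt_symm hmt).tendsto.comp (tendsto_move hκ hy)
  have h7 : ∀ N, h (φ.symm ((TT x)^[NN (κ N)] q)) = φ.symm ((TT y)^[NN (κ N)] q0) := by
    intro N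
    rw [← (tr_iter hφ (sp_TT x) _ hqt).1, hiter, ← hq2, h.apply_symm_apply,
      (tr_iter hφ (sp_TT y) _ hq0).1]
  simp only [h7] at h4
  have h8 := tendsto_nhds_unique h6 h4
  have h9 := φ.symm.injOn (x₁ := fl F (-(1 / 2)) q0) (x₂ := q0) hmt hq0 h8
  exact fl_q0 h9

include hφ in
/-- The maps of close sequences are conjugate. -/
theorem conj {x y : ℕ → ℝ} (hxy : Summable fun n => |x n - y n|) :
    ∃ h : M ≃ₜ M, ∀ m, h (tr φ (TT x) m) = tr φ (TT y) (h m) := by
  have c1 : Continuous (Th (cj x y) : ℂ × F → ℂ × F) :=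
    (contDiff_Th (n := 0) (cj_per x y) (contDiff_zero.2 (cj_cont hxy))).continuous
  have c2 : Continuous (Th (fun t => - cj x y t) : ℂ × F → ℂ × F) :=
    (contDiff_Th (n := 0) (per_neg (cj_per x y)) (contDiff_zero.2 (cj_cont hxy).neg)).continuous
  refine ⟨⟨⟨tr φ (Th (cj x y)), tr φ (Th (fun t => - cj x y t)), fun m => ?_, fun m => ?_⟩,
    tr_continuous hφ (sp_Th _) c1, tr_continuous hφ (sp_Th _) c2⟩, fun m => ?_⟩
  · rw [tr_comp hφ (sp_Th _)]
    exact tr_id (Th_inv _) m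
  · rw [tr_comp hφ (sp_Th _)]
    exact tr_id (Th_inv' _) m
  · show tr φ (Th (cj x y)) (tr φ (TT x) m) = tr φ (TT y) (tr φ (Th (cj x y)) m)
    rw [tr_comp hφ (sp_TT x), tr_comp hφ (sp_Th _)]
    congr 1
    funext q
    exact TT_conj hxy q

end trans

end Pool.Agent.Y567.DF
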