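import Mathlib
import Pool.Agent.Y567.DF.Trans
import Pool.Agent.W922.PolishD

/-!
# Diffeomorphisms of a manifold of dimension at least two
-/

set_option autoImplicit false
set_option linter.unusedSectionVars false

open Filter Topology Set
open scoped ContDiff Manifold

namespace Pool.Agent.Y567.DF

open Pool.Agent.H410R3.KS (DiffR crTopology TopConj)

variable {E : Type} [NormedAddCommGroup E] [NormedSpace ℝ E] [FiniteDimensional ℝ E]
  {M : Type} [TopologicalSpace M] [ChartedSpace E M] [IsManifold 𝓘(ℝ, E) ∞ M] [T2Space M]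

variable (E) in
/-- the complementary space -/
abbrev FF : Type := EuclideanSpace ℝ (Fin (Module.finrank ℝ E - 2))

/-- A chart whose target contains the closed ball. -/
structure GoodChart (φ : OpenPartialHomeomorph M (ℂ × FF E)) : Prop where
  sub : KK (FF E) ⊆ φ.target
  sm : ContMDiffOn 𝓘(ℝ, E) 𝓘(ℝ, ℂ × FF E) ∞ φ φ.source
  sm' : ContMDiffOn 𝓘(ℝ, ℂ × FF E) 𝓘(ℝ, E) ∞ φ.symm φ.target

lemma exists_chart (hE : 2 ≤ Module.finrank ℝ E) (x0 : M) :
    ∃ φ : OpenPartialHomeomorph M (ℂ × FF E), GoodChart φ := by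
  have hfr : Module.finrank ℝ (ℂ × FF E) = Module.finrank ℝ E := by
    rw [Module.finrank_prod, Complex.finrank_real_complex, finrank_euclideanSpace_fin]
    omega
  let ℓ : (ℂ × FF E) ≃L[ℝ] E := ContinuousLinearEquiv.ofFinrankEq hfr
  set c := chartAt E x0 with hc
  have hx : c x0 ∈ c.target := c.map_source (mem_chart_source E x0)
  obtain ⟨r, hr, hball⟩ := Metric.isOpen_iff.1 c.open_target (c x0) hx
  obtain ⟨C, hC0, hC⟩ := (ℓ : (ℂ × FF E) →L[ℝ] E).bound
  set ε : ℝ := r / (4 * C) with hε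
  have hε0 : 0 < ε := by positivity
  have hεne : ε ≠ 0 := hε0.ne'
  let e : E ≃ₜ (ℂ × FF E) :=
    { toFun := fun v => ε⁻¹ • ℓ.symm (v - c x0)
      invFun := fun q => c x0 + ε • ℓ q
      left_inv := fun v => by
        simp only [map_smul, ContinuousLinearEquiv.apply_symm_apply]
        rw [smul_smul, mul_inv_cancel₀ hεne, one_smul, add_sub_cancel]
      right_inv := fun q => by
        simp only [add_sub_cancel_left, map_smul, ContinuousLinearEquiv.symm_apply_apply]
        rw [smul_smul, inv_mul_cancel₀ hεne, one_smul]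
      continuous_toFun := (ℓ.symm.continuous.comp
        (continuous_id.sub continuous_const)).const_smul ε⁻¹
      continuous_invFun := continuous_const.add (ℓ.continuous.const_smul ε) }
  have he : ContDiff ℝ ∞ (e : E → ℂ × FF E) := by
    have h1 : ContDiff ℝ ∞ fun v : E => ℓ.symm (v - c x0) :=
      ℓ.symm.contDiff.comp (contDiff_id.sub contDiff_const)
    exact h1.const_smul ε⁻¹
  have he' : ContDiff ℝ ∞ (e.symm : ℂ × FF E → E) := by
    have h1 : ContDiff ℝ ∞ fun q : ℂ × FF E => ε • ℓ q := ℓ.contDiff.const_smul ε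
    exact contDiff_const.add h1
  refine ⟨c.transHomeomorph e, ?_, ?_, ?_⟩
  · intro q hq
    show e.symm q ∈ c.target
    apply hball
    rw [Metric.mem_ball, dist_eq_norm]
    have h1 : e.symm q - c x0 = ε • ℓ q := by
      show c x0 + ε • ℓ q - c x0 = _
      rw [add_sub_cancel_left]
    rw [h1, norm_smul, Real.norm_eq_abs, abs_of_pos hε0]
    have h2 : ‖q‖ ≤ 2 := norm_le_of_gg (by norm_num) (by
      have : gg q ≤ 2 := hq
      linarith)
    have h3 : ‖ℓ q‖ ≤ C * ‖q‖ := hC q
    calc ε * ‖ℓ q‖ ≤ ε * (C * 2) := by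
          apply mul_le_mul_of_nonneg_left _ hε0.le
          exact h3.trans (mul_le_mul_of_nonneg_left h2 hC0.le)
      _ = r / 2 := by
          rw [hε]
          field_simp
          ring
      _ < r := by linarith
  · exact he.contMDiff.comp_contMDiffOn (contMDiffOn_chart (I := 𝓘(ℝ, E)) (n := ∞) (x := x0))
  · have h1 : ContMDiffOn 𝓘(ℝ, E) 𝓘(ℝ, E) ∞ c.symm c.target :=
      contMDiffOn_chart_symm (I := 𝓘(ℝ, E)) (n := ∞) (x := x0)
    exact h1.comp (he'.contMDiff.contMDiffOn (s := (c.transHomeomorph e).target))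
      (fun q hq => hq)

variable {φ : OpenPartialHomeomorph M (ℂ × FF E)}

lemma tr_smooth (hφ : GoodChart φ) {T : ℂ × FF E → ℂ × FF E} (hT : Sp T) (hc : ContDiff ℝ ∞ T) :
    ContMDiff 𝓘(ℝ, E) 𝓘(ℝ, E) ∞ (tr φ T) := by
  intro m
  by_cases hm : m ∈ φ.source
  · have hm2 : T (φ m) ∈ φ.target := mem_target hφ.sub hT (φ.map_source hm)
    have h1 : ContMDiffAt 𝓘(ℝ, E) 𝓘(ℝ, ℂ × FF E) ∞ φ m :=
      hφ.sm.contMDiffAt (φ.open_source.mem_nhds hm)
    have h2 : ContMDiffAt 𝓘(ℝ, E) 𝓘(ℝ, ℂ × FF E) ∞ (fun z => T (φ z)) m :=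
      ContMDiffAt.comp (I' := 𝓘(ℝ, ℂ × FF E)) m hc.contMDiff.contMDiffAt h1
    have h3 : ContMDiffAt 𝓘(ℝ, ℂ × FF E) 𝓘(ℝ, E) ∞ φ.symm (T (φ m)) :=
      hφ.sm'.contMDiffAt (φ.open_target.mem_nhds hm2)
    have h4 : ContMDiffAt 𝓘(ℝ, E) 𝓘(ℝ, E) ∞ (fun z => φ.symm (T (φ z))) m :=
      ContMDiffAt.comp (I' := 𝓘(ℝ, ℂ × FF E)) (g := φ.symm) m h3 h2
    refine h4.congr_of_eventuallyEq ?_
    filter_upwards [φ.open_source.mem_nhds hm] with z hz
    exact tr_of_mem hz
  · exact contMDiffAt_id.congr_of_eventuallyEq (tr_off hφ.sub hT hm)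

/-- the diffeomorphism of a sequence -/
noncomputable def DD (hφ : GoodChart φ) (a : ℕ → ℝ) : DiffR 𝓘(ℝ, E) M ⊤ :=
  ({ toFun := tr φ (TT a)
     invFun := tr φ (TT' a)
     left_inv := fun m => by
       rw [tr_comp hφ.sub (sp_TT a)]
       exact tr_id (TT'_TT a) m
     right_inv := fun m => by
       rw [tr_comp hφ.sub (sp_TT' a)]
       exact tr_id (TT_TT' a) m
     contMDiff_toFun := tr_smooth hφ (sp_TT a) (contDiff_TT a (n := ⊤))
     contMDiff_invFun := tr_smooth hφ (sp_TT' a) (contDiff_TT' a (n := ⊤)) } :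
    Diffeomorph 𝓘(ℝ, E) 𝓘(ℝ, E) M M ((⊤ : ℕ∞) : WithTop ℕ∞))

lemma DD_map (hφ : GoodChart φ) (a : ℕ → ℝ) : (DD hφ a).map = tr φ (TT a) := rfl

lemma DD_continuous (hφ : GoodChart φ) (m : M) : Continuous fun a => (DD hφ a).map m := by
  simp only [DD_map]
  by_cases hm : m ∈ φ.source
  · simp only [tr_of_mem hm]
    rw [continuous_iff_continuousAt]
    intro a
    refine ContinuousAt.comp (g := φ.symm) (f := fun a => TT a (φ m)) ?_
      (continuous_TT (φ m)).continuousAt
    exact φ.continuousAt_symm (mem_target hφ.sub (sp_TT a) (φ.map_source hm))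
  · simp only [tr_of_not_mem hm]
    exact continuous_const

open Pool.Agent.H410R3.DG in
/-- Maps into the space of diffeomorphisms which are Borel at each point are Borel. -/
lemma measurable_of_eval [CompactSpace M] {X : Type} [MeasurableSpace X]
    (D : X → DiffR 𝓘(ℝ, E) M ⊤)
    (hD : ∀ m : M, @Measurable X M _ (borel M) fun a => (D a).map m) :
    @Measurable X (DiffR 𝓘(ℝ, E) M ⊤) _ (@borel _ (crTopology 𝓘(ℝ, E) M ⊤)) D := by
  let τ : TopologicalSpace (DiffR 𝓘(ℝ, E) M ⊤) := crTopology 𝓘(ℝ, E) M ⊤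
  let mD : MeasurableSpace (DiffR 𝓘(ℝ, E) M ⊤) := borel _
  have bD : BorelSpace (DiffR 𝓘(ℝ, E) M ⊤) := ⟨rfl⟩
  let mM : MeasurableSpace M := borel M
  have bM : BorelSpace M := ⟨rfl⟩
  have hP : PolishSpace (DiffR 𝓘(ℝ, E) M ⊤) := Pool.Agent.W922.polish_cr ⊤ le_top
  have _ : SecondCountableTopology M := ChartedSpace.secondCountable_of_sigmaCompact E M
  have _ : PolishSpace M := polish_of_compact M
  have hev := continuous_eval_of_le (E := E) (M := M) (r := ⊤) (t := τ) le_rfl
  obtain ⟨S, hSc, hSd⟩ := TopologicalSpace.exists_countable_dense M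
  have _ : Countable S := hSc.to_subtype
  let ι : DiffR 𝓘(ℝ, E) M ⊤ → (S → M) := fun f s => f.map s
  have hι : Continuous ι := continuous_pi fun s => hev.comp (continuous_id.prodMk continuous_const)
  have hinj : Function.Injective ι := by
    intro f g hfg
    have h1 : f.map = g.map := by
      refine Continuous.ext_on hSd ?_ ?_ ?_
      · exact hev.comp (continuous_const.prodMk continuous_id)
      · exact hev.comp (continuous_const.prodMk continuous_id)
      · intro s hs
        exact congrFun hfg ⟨s, hs⟩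
    apply Diffeomorph.toEquiv_injective
    ext x : 1
    exact congrFun h1 x
  have hme : MeasurableEmbedding ι := hι.measurableEmbedding hinj
  rw [← hme.measurable_comp_iff]
  exact measurable_pi_lambda _ fun s => hD s

lemma DD_measurable [CompactSpace M] (hφ : GoodChart φ) :
    @Measurable (ℕ → ℝ) (DiffR 𝓘(ℝ, E) M ⊤) _ (@borel _ (crTopology 𝓘(ℝ, E) M ⊤)) (DD hφ) := by
  refine measurable_of_eval _ fun m => ?_
  let mM : MeasurableSpace M := borel M
  have bM : BorelSpace M := ⟨rfl⟩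
  exact (DD_continuous hφ m).measurable

end Pool.Agent.Y567.DF
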