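import Mathlib
import Pool.Agent.Y567.NC.Erg
import Pool.Agent.Y567.DF.Mfd
import Pool.Agent.H468R2.KA.P_F_perm
import Pool.Agent.H468R2.KA.P_F_top
import Pool.Agent.H468R2.KA.P_F_vt

/-!
# Topological conjugacy of diffeomorphisms is not reducible to an action of `S_∞`
-/

set_option autoImplicit false
set_option linter.unusedSectionVars false

open Filter Topology Set
open scoped ContDiff Manifold

namespace Pool.Agent.Y567.DF

open Pool.Agent.H410R3.KS (DiffR crTopology TopConj)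
open Pool.Agent.H468R2.KA (permMS permTop)

universe u

/-- the Borel structure of `S_∞`, for the topology of pointwise convergence -/
@[reducible] def SinfBorel : MeasurableSpace (Equiv.Perm ℕ) :=
  @borel (Equiv.Perm ℕ)
    (TopologicalSpace.induced (fun (σ : Equiv.Perm ℕ) (n : ℕ) => σ n) Pi.topologicalSpace)

lemma sinfBorel_le : SinfBorel ≤ permMS := by
  have h1 : SinfBorel = MeasurableSpace.comap (fun (σ : Equiv.Perm ℕ) (n : ℕ) => σ n)
      (borel (ℕ → ℕ)) := borel_comap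
  have h2 : borel (ℕ → ℕ) = (inferInstance : MeasurableSpace (ℕ → ℕ)) :=
    (BorelSpace.measurable_eq).symm
  rw [h1, h2, ← @measurable_iff_comap_le _ _ permMS]
  refine @measurable_pi_lambda _ _ _ permMS _ _ fun i => ?_
  refine @measurable_to_countable' ℕ (Equiv.Perm ℕ) _ _ permMS _ fun j => ?_
  exact MeasurableSpace.measurableSet_generateFrom ⟨i, j, rfl⟩

lemma perm_erg : Pool.Agent.H468R2.KA.F_perm.{u} :=
  Pool.Agent.H468R2.KA.t_F_perm Pool.Agent.H468R2.KA.t_F_top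
    (Pool.Agent.H468R2.KA.t_F_vt Pool.Agent.H468R2.KA.t_F_top) Pool.Agent.Y567.NC.erg

theorem no_reduction {E : Type} [NormedAddCommGroup E] [NormedSpace ℝ E] [FiniteDimensional ℝ E]
    (hE : 2 ≤ Module.finrank ℝ E) {M : Type} [TopologicalSpace M] [ChartedSpace E M]
    [IsManifold 𝓘(ℝ, E) ∞ M] [T2Space M] [CompactSpace M] [Nonempty M]
    {Y : Type u} [MeasurableSpace Y] [StandardBorelSpace Y] [MulAction (Equiv.Perm ℕ) Y]
    (hact : @Measurable (Equiv.Perm ℕ × Y) Y (@Prod.instMeasurableSpace _ _ SinfBorel _) _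
      (fun p => p.1 • p.2))
    (θ : DiffR 𝓘(ℝ, E) M ⊤ → Y)
    (hθ : @Measurable _ _ (@borel _ (crTopology 𝓘(ℝ, E) M ⊤)) _ θ)
    (hred : ∀ f g : DiffR 𝓘(ℝ, E) M ⊤, (∃ h : M ≃ₜ M, ∀ x, h (f.map x) = g.map (h x)) ↔
      ∃ σ : Equiv.Perm ℕ, σ • θ f = θ g) : False := by
  obtain ⟨x0⟩ := ‹Nonempty M›
  obtain ⟨φ, hφ⟩ := exists_chart hE x0
  have hact' : @Measurable (Equiv.Perm ℕ × Y) Y (@Prod.instMeasurableSpace _ _ permMS _) _
      (fun p => p.1 • p.2) := by
    refine @Measurable.mono _ _ (@Prod.instMeasurableSpace _ _ SinfBorel _)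
      (@Prod.instMeasurableSpace _ _ permMS _) _ _ _ hact ?_ le_rfl
    exact sup_le_sup (MeasurableSpace.comap_mono sinfBorel_le) le_rfl
  have hF : Measurable fun a => θ (DD hφ a) :=
    @Measurable.comp _ _ _ _ (@borel _ (crTopology 𝓘(ℝ, E) M ⊤)) _ _ _ hθ (DD_measurable hφ)
  obtain ⟨C, hC, hC2⟩ := perm_erg Y hact' _ hF fun x y hxy =>
    (hred (DD hφ x) (DD hφ y)).1 (conj hφ.sub hxy)
  obtain ⟨x, hx, y, hy, hxy⟩ := Pool.Agent.H468R2.MA.t_T_GEN C hC
  obtain ⟨h, hh⟩ := (hred (DD hφ x) (DD hφ y)).2 (hC2 x hx y hy)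
  exact not_conj hφ.sub hxy h hh

end Pool.Agent.Y567.DF
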